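import Pool.Agent.GLE.StmtsA

/-!
# Row ARE: the logarithmic area of an injective image
-/

namespace Pool.Agent.GLE.H33

open MeasureTheory Filter Topology Pool.Agent.GLE

/-- `c` times, as a real linear map -/
noncomputable def mulR (c : ℂ) : ℂ →L[ℝ] ℂ := c • (1 : ℂ →L[ℝ] ℂ)

theorem mulR_apply (c v : ℂ) : mulR c v = c * v := by simp [mulR]

theorem mulR_det (c : ℂ) : (mulR c).det = ‖c‖ ^ 2 := by
  have h : (mulR c).det = LinearMap.det (mulR c : ℂ →ₗ[ℝ] ℂ) := rfl
  rw [h, ← LinearMap.det_toMatrix Complex.basisOneI, Matrix.det_fin_two]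
  simp only [LinearMap.toMatrix_apply, ContinuousLinearMap.coe_coe, mulR_apply]
  simp
  rw [← Complex.normSq_eq_norm_sq, Complex.normSq_apply]

/-- the closed annulus -/
def ann (δ Δ : ℝ) : Set ℂ := {z | δ ≤ ‖z‖ ∧ ‖z‖ ≤ Δ}

theorem ann_closed (δ Δ : ℝ) : IsClosed (ann δ Δ) :=
  (isClosed_le continuous_const continuous_norm).inter
    (isClosed_le continuous_norm continuous_const)

theorem ann_compact (δ Δ : ℝ) : IsCompact (ann δ Δ) := by
  refine (isCompact_closedBall (0 : ℂ) Δ).of_isClosed_subset (ann_closed δ Δ) fun z hz => ?_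
  rw [mem_closedBall_zero_iff]
  exact hz.2

theorem ann_int {δ Δ : ℝ} (hδ : 0 < δ) :
    IntegrableOn (fun z : ℂ => (‖z‖ ^ 2)⁻¹) (ann δ Δ) := by
  refine ContinuousOn.integrableOn_compact (ann_compact δ Δ) ?_
  refine ContinuousOn.inv₀ (by fun_prop) fun z hz => ?_
  have : 0 < ‖z‖ := hδ.trans_le hz.1
  positivity

theorem ann_val {δ Δ : ℝ} (hδ : 0 < δ) (hΔ : δ ≤ Δ) :
    ∫ z in ann δ Δ, (‖z‖ ^ 2)⁻¹ = 2 * Real.pi * Real.log (Δ / δ) := by
  rw [← integral_indicator (ann_closed δ Δ).measurableSet]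
  have e1 : ∀ z : ℂ, (ann δ Δ).indicator (fun z => (‖z‖ ^ 2)⁻¹) z =
      (fun r : ℝ => (Set.Icc δ Δ).indicator (fun r => (r ^ 2)⁻¹) r) ‖z‖ := by
    intro z
    by_cases hz : z ∈ ann δ Δ
    · rw [Set.indicator_of_mem hz]
      have : ‖z‖ ∈ Set.Icc δ Δ := hz
      simp only [Set.indicator_of_mem this]
    · rw [Set.indicator_of_notMem hz]
      have : ‖z‖ ∉ Set.Icc δ Δ := hz
      simp only [Set.indicator_of_notMem this]
  simp_rw [e1]
  rw [integral_fun_norm_addHaar (volume : Measure ℂ)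
    (fun r : ℝ => (Set.Icc δ Δ).indicator (fun r => (r ^ 2)⁻¹) r)]
  rw [Complex.finrank_real_complex]
  have e2 : (volume : Measure ℂ).real (Metric.ball 0 1) = Real.pi := by
    rw [Measure.real, Complex.volume_ball]
    simp
  rw [e2]
  have e3 : ∫ y in Set.Ioi (0 : ℝ), y ^ (2 - 1) •
      (Set.Icc δ Δ).indicator (fun r : ℝ => (r ^ 2)⁻¹) y = ∫ y in δ..Δ, y⁻¹ := by
    rw [intervalIntegral.integral_of_le hΔ, ← integral_Icc_eq_integral_Ioc,
      ← integral_indicator measurableSet_Icc, ← integral_indicator measurableSet_Ioi]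
    refine integral_congr_ae (Eventually.of_forall fun y => ?_)
    by_cases hy : y ∈ Set.Icc δ Δ
    · have h0 : 0 < y := hδ.trans_le hy.1
      have h1 : y ∈ Set.Ioi (0 : ℝ) := h0
      simp only [Set.indicator_of_mem hy, Set.indicator_of_mem h1, smul_eq_mul]
      field_simp
      norm_num
    · by_cases h1 : y ∈ Set.Ioi (0 : ℝ)
      · simp only [Set.indicator_of_notMem hy, Set.indicator_of_mem h1, smul_zero]
      · simp only [Set.indicator_of_notMem hy, Set.indicator_of_notMem h1]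
  rw [e3, integral_inv_of_pos hδ (hδ.trans_le hΔ)]
  simp only [nsmul_eq_mul, smul_eq_mul]
  push_cast
  ring

theorem are : AreStmt := by
  intro U g δ Δ hδ hΔ hU hg hinj hb
  have hsub : g '' U ⊆ ann δ Δ := by
    rintro _ ⟨t, ht, rfl⟩
    exact hb t ht
  have hder : ∀ t ∈ U, HasFDerivWithinAt g (mulR (deriv g t)) U t := fun t ht =>
    ((hg.differentiableAt (hU.mem_nhds ht)).hasDerivAt.complexToReal_fderiv).hasFDerivWithinAt
  have hi : IntegrableOn (fun z : ℂ => (‖z‖ ^ 2)⁻¹) (g '' U) := (ann_int hδ).mono_set hsub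
  have e1 : (fun t => |(mulR (deriv g t)).det| • (‖g t‖ ^ 2)⁻¹) =
      fun t => ‖deriv g t‖ ^ 2 / ‖g t‖ ^ 2 := by
    funext t
    rw [mulR_det, abs_of_nonneg (sq_nonneg _), smul_eq_mul, div_eq_mul_inv]
  have h1 := (integrableOn_image_iff_integrableOn_abs_det_fderiv_smul volume hU.measurableSet
    hder hinj (fun z : ℂ => (‖z‖ ^ 2)⁻¹)).1 hi
  rw [e1] at h1
  refine ⟨h1, ?_⟩
  have h2 := integral_image_eq_integral_abs_det_fderiv_smul volume hU.measurableSet hder hinj
    (fun z : ℂ => (‖z‖ ^ 2)⁻¹)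
  rw [e1] at h2
  rw [← h2, ← ann_val hδ hΔ]
  exact setIntegral_mono_set (ann_int hδ) (Eventually.of_forall fun z => by positivity)
    (Eventually.of_forall hsub)

end Pool.Agent.GLE.H33
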