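import Pool.Agent.GLE.StmtsA

/-!
# Row INJ: the inverse Boettcher map of finite level
-/

namespace Pool.Agent.GLE.H33

open Filter Topology Pool.Agent.GLE

theorem sqc_zero (s : ℕ → ℂ) : sqc s 0 = 1 := by rw [sqc]

theorem sqc_succ (s : ℕ → ℂ) (n : ℕ) : sqc s (n + 1) =
    (1 / 2 : ℝ) • (s (n + 1) - ∑ i : Fin n, sqc s (i + 1) * sqc s (n - i)) := by rw [sqc]

theorem sqc_odd (s : ℕ → ℂ) (hs : ∀ n, Odd n → s n = 0) : ∀ n, Odd n → sqc s n = 0 := by
  intro n
  induction n using Nat.strong_induction_on with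
  | _ n ih =>
    intro hn
    cases n with
    | zero => simp at hn
    | succ m =>
      rw [sqc_succ, hs _ hn, Finset.sum_eq_zero, sub_zero, smul_zero]
      intro i _
      have hi := i.2
      rcases Nat.even_or_odd (i + 1 : ℕ) with h | h
      · have h1 : Odd (m - i : ℕ) := by
          rw [Nat.odd_iff] at hn ⊢
          rw [Nat.even_iff] at h
          omega
        rw [ih (m - i) (by omega) h1, mul_zero]
      · rw [ih (i + 1) (by omega) h, zero_mul]

/-- the series under the square root -/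
noncomputable def ss (c : ℂ) (L : ℕ) (n : ℕ) : ℂ :=
  (if n % 2 = 0 then al c L (n / 2) else 0) - (if n = 2 then c else 0)

theorem al_succ (c : ℂ) (L : ℕ) : al c (L + 1) = sqc (ss c L) := by
  rw [al]
  rfl

theorem al_zero (c : ℂ) (L : ℕ) : al c L 0 = 1 := by
  cases L with
  | zero => simp [al]
  | succ L => rw [al_succ, sqc_zero]

theorem ss_zero (c : ℂ) (L : ℕ) : ss c L 0 = 1 := by
  simp [ss, al_zero]

theorem ss_odd (c : ℂ) (L n : ℕ) (hn : Odd n) : ss c L n = 0 := by
  rw [Nat.odd_iff] at hn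
  have h1 : n ≠ 2 := by omega
  simp [ss, hn, h1]

theorem As_zero (c : ℂ) (L : ℕ) : As c L 0 = 1 := by
  unfold As
  rw [tsum_eq_single 0]
  · simp [al_zero]
  · intro n hn
    simp [hn]

theorem ss_hasSum (c : ℂ) (L : ℕ) {t : ℂ} (h : Summable fun n => al c L n * (t ^ 2) ^ n) :
    HasSum (fun n => ss c L n * t ^ n) (As c L (t ^ 2) - c * t ^ 2) := by
  have h1 : HasSum (fun n => (if n % 2 = 0 then al c L (n / 2) else 0) * t ^ n)
      (As c L (t ^ 2)) := by
    have h2 : Function.Injective (fun m : ℕ => 2 * m) := fun a b hab => by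
      simpa using hab
    rw [← h2.hasSum_iff]
    · have h3 : ((fun n => (if n % 2 = 0 then al c L (n / 2) else 0) * t ^ n) ∘
          fun m : ℕ => 2 * m) = fun n => al c L n * (t ^ 2) ^ n := by
        funext m
        simp [pow_mul]
      rw [h3]
      exact h.hasSum
    · intro n hn
      have h3 : n % 2 ≠ 0 := by
        intro h0
        apply hn
        exact ⟨n / 2, by show 2 * (n / 2) = n; omega⟩
      simp [h3]
  have h2 : HasSum (fun n => (if n = 2 then c else 0) * t ^ n) (c * t ^ 2) := by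
    have h3 := hasSum_single (f := fun n => (if n = 2 then c else 0) * t ^ n) 2
      (fun n hn => by simp [hn])
    simpa using h3
  refine (h1.sub h2).congr_fun fun n => ?_ 
  unfold ss
  ring

theorem av_iter (c : ℂ) (L : ℕ) : av (L + 1) c = (fun z : ℂ => z ^ 2 + c)^[L] c := by
  have h : ∀ m, av m c = (fun z : ℂ => z ^ 2 + c)^[m] 0 := by
    intro m
    induction m with
    | zero => rfl
    | succ m ih =>
      rw [Function.iterate_succ_apply', ← ih]
      rfl
  rw [h, Function.iterate_succ_apply]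
  simp

theorem inj (hSqa : SqaStmt) : InjStmt := by
  intro L
  induction L with
  | zero =>
    intro c _
    have h0 : ∀ t, As c 0 t = 1 := by
      intro t
      unfold As
      rw [tsum_eq_single 0]
      · simp [al]
      · intro n hn
        simp [al, hn]
    refine ⟨fun t _ => ?_, fun t _ _ => ?_, ?_⟩
    · refine summable_of_ne_finset_zero (s := {0}) fun n hn => ?_
      have : n ≠ 0 := by simpa using hn
      simp [al, this]
    · simp [h0]
    · intro t _ t' _ h
      simp only [h0, one_div] at h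
      exact inv_injective h
  | succ L ih =>
    intro c hc
    obtain ⟨i1, i2, i3⟩ := ih c fun j h1 h2 => hc j h1 (by omega)
    -- the domain
    have hdom : ∀ t : ℂ, 16 * ‖t‖ ^ (2 ^ (L + 1)) < 1 → 16 * ‖t ^ 2‖ ^ (2 ^ L) < 1 := by
      intro t ht
      rw [norm_pow, ← pow_mul, ← pow_succ']
      exact ht
    have hs : ∀ t : ℂ, 16 * ‖t‖ ^ (2 ^ (L + 1)) < 1 →
        HasSum (fun n => ss c L n * t ^ n) (As c L (t ^ 2) - c * t ^ 2) := fun t ht =>
      ss_hasSum c L (i1 _ (hdom t ht))
    have hne : ∀ t : ℂ, 16 * ‖t‖ ^ (2 ^ (L + 1)) < 1 → As c L (t ^ 2) - c * t ^ 2 ≠ 0 := by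
      intro t ht h0
      by_cases ht0 : t = 0
      · subst ht0
        simp [As_zero] at h0
      · have ht2 : t ^ 2 ≠ 0 := pow_ne_zero 2 ht0
        have h1 : As c L (t ^ 2) / t ^ 2 = c := by
          rw [sub_eq_zero] at h0
          rw [h0, mul_div_cancel_right₀ _ ht2]
        have h2 := i2 (t ^ 2) ht2 (hdom t ht)
        rw [h1, ← av_iter] at h2
        have h3 := hc (L + 1) (by omega) le_rfl
        rw [h2, norm_pow, norm_div, norm_one, div_pow, one_pow] at h3
        have h4 := hdom t ht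
        have h5 : 0 < ‖t ^ 2‖ ^ (2 ^ L) := by
          have : 0 < ‖t ^ 2‖ := norm_pos_iff.2 ht2
          positivity
        rw [div_le_iff₀ h5] at h3
        linarith
    -- the square root
    obtain ⟨ρ, hρ⟩ : ∃ ρ : ℝ, ρ = (1 / 16 : ℝ) ^ (((2 ^ (L + 1) : ℕ) : ℝ)⁻¹) := ⟨_, rfl⟩
    have hρ0 : 0 < ρ := by rw [hρ]; positivity
    have hρN : ρ ^ (2 ^ (L + 1)) = 1 / 16 := by
      rw [hρ]
      exact Real.rpow_inv_natCast_pow (by norm_num) (by positivity)
    have hlt : ∀ t : ℂ, ‖t‖ < ρ → 16 * ‖t‖ ^ (2 ^ (L + 1)) < 1 := by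
      intro t ht
      have h1 : ‖t‖ ^ (2 ^ (L + 1)) < ρ ^ (2 ^ (L + 1)) :=
        pow_lt_pow_left₀ ht (norm_nonneg _) (by positivity)
      rw [hρN] at h1
      linarith
    have hlt' : ∀ t : ℂ, 16 * ‖t‖ ^ (2 ^ (L + 1)) < 1 → ‖t‖ < ρ := by
      intro t ht
      by_contra h
      push Not at h
      have h1 := pow_le_pow_left₀ hρ0.le h (2 ^ (L + 1))
      rw [hρN] at h1
      linarith
    have hq := hSqa (ss c L) ρ hρ0 (ss_zero c L) (fun t ht => (hs t (hlt t ht)).summable)
      (fun t ht => by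
        rw [(hs t (hlt t ht)).tsum_eq]
        exact hne t (hlt t ht))
    have hsum : ∀ t : ℂ, 16 * ‖t‖ ^ (2 ^ (L + 1)) < 1 →
        Summable (fun n => al c (L + 1) n * t ^ n) := by
      intro t ht
      have := (hq t (hlt' t ht)).1
      rw [al_succ]
      exact this
    have hsq : ∀ t : ℂ, 16 * ‖t‖ ^ (2 ^ (L + 1)) < 1 →
        As c (L + 1) t ^ 2 = As c L (t ^ 2) - c * t ^ 2 := by
      intro t ht
      have h1 := (hq t (hlt' t ht)).2
      rw [(hs t ht).tsum_eq] at h1
      unfold As at h1 ⊢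
      rw [al_succ]
      exact h1
    have hf : ∀ t : ℂ, t ≠ 0 → 16 * ‖t‖ ^ (2 ^ (L + 1)) < 1 →
        (As c (L + 1) t / t) ^ 2 + c = As c L (t ^ 2) / t ^ 2 := by
      intro t ht0 ht
      rw [div_pow, hsq t ht]
      field_simp
      ring
    have heven : ∀ t : ℂ, As c (L + 1) (-t) = As c (L + 1) t := by
      intro t
      unfold As
      refine tsum_congr fun n => ?_
      rcases Nat.even_or_odd n with h | h
      · rw [h.neg_pow]
      · rw [al_succ, sqc_odd _ (ss_odd c L) n h, zero_mul, zero_mul]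
    refine ⟨hsum, ?_, ?_⟩
    · intro t ht0 ht
      rw [Function.iterate_succ_apply]
      show (fun z : ℂ => z ^ 2 + c)^[L] ((As c (L + 1) t / t) ^ 2 + c) = _
      rw [hf t ht0 ht, i2 (t ^ 2) (pow_ne_zero 2 ht0) (hdom t ht), pow_succ' 2 L, pow_mul]
      congr 1
      rw [div_pow, one_pow]
    · rintro t ⟨ht0, ht⟩ t' ⟨ht0', ht'⟩ h
      simp only at h
      have h1 : As c L (t ^ 2) / t ^ 2 = As c L (t' ^ 2) / t' ^ 2 := by
        rw [← hf t ht0 ht, ← hf t' ht0' ht', h]
      have h2 : t ^ 2 = t' ^ 2 := i3 ⟨pow_ne_zero 2 ht0, hdom t ht⟩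
        ⟨pow_ne_zero 2 ht0', hdom t' ht'⟩ h1
      rcases sq_eq_sq_iff_eq_or_eq_neg.1 h2 with h3 | h3
      · exact h3
      · exfalso
        rw [h3, heven, div_neg] at h
        have h4 : As c (L + 1) t' / t' = 0 := by
          have : 2 * (As c (L + 1) t' / t') = 0 := by linear_combination -h
          simpa using this
        rw [div_eq_zero_iff] at h4
        rcases h4 with h4 | h4
        · have h5 := hsq t' ht'
          rw [h4] at h5
          exact hne t' ht' (by rw [← h5]; ring)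
        · exact ht0' h4

end Pool.Agent.GLE.H33
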